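import Pool.Agent.H68.NPH.Base
import Pool.Agent.H1.NP.PNP

/-!
For every `k > 3`, recognising outer `k`-quasi-planar graphs is NP-hard.
-/

namespace Pool.Agent.Results.MP_3c8dce_lc.NPHard

/-- The vertices are placed in convex position in the order of the numbers `f v`.  The segments
`e.1 e.2` and `d.1 d.2` cross: their four endpoints are distinct and alternate. -/
def Crossing {V : Type*} (f : V → ℕ) (e d : V × V) : Prop :=
  (min (f e.1) (f e.2) < min (f d.1) (f d.2) ∧ min (f d.1) (f d.2) < max (f e.1) (f e.2) ∧
    max (f e.1) (f e.2) < max (f d.1) (f d.2)) ∨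
  (min (f d.1) (f d.2) < min (f e.1) (f e.2) ∧ min (f e.1) (f e.2) < max (f d.1) (f d.2) ∧
    max (f d.1) (f d.2) < max (f e.1) (f e.2))

/-- `G` is outer `k`-quasi-planar: for some placement of the vertices in convex position (given
by an injective `f`) there are no `k` pairwise crossing edges. -/
def OuterQuasiPlanar {V : Type*} (k : ℕ) (G : SimpleGraph V) : Prop :=
  ∃ f : V → ℕ, Function.Injective f ∧ ¬ ∃ e : Fin k → V × V,
    (∀ i, G.Adj (e i).1 (e i).2) ∧ ∀ i j, i ≠ j → Crossing f (e i) (e j)

/-- The finite simple graph given by its number of vertices and a list of edges: the vertices are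
`0, …, n - 1`, and distinct `u` and `v` are adjacent if `(u, v)` or `(v, u)` is in the list. -/
def graphOf (g : ℕ × List (ℕ × ℕ)) : SimpleGraph (Fin g.1) :=
  SimpleGraph.fromRel (fun u v => ((u : ℕ), (v : ℕ)) ∈ g.2)

/-- The code of a graph: the numbers `n, u₁, v₁, u₂, v₂, …` where `n` is the number of vertices and
`(u₁, v₁), (u₂, v₂), …` are the listed edges; each number `x` is written as `x` ones and a zero. -/
def graphCode (g : ℕ × List (ℕ × ℕ)) : List Bool :=
  (g.1 :: g.2.flatMap (fun e => [e.1, e.2])).flatMap (fun x => List.replicate x true ++ [false])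

open Classical in
/-- The recognition problem: is the input string the code of an outer `k`-quasi-planar graph? -/
noncomputable def Recognition (k : ℕ) : N68a2faeb.DecisionProblem :=
  fun w => decide (∃ g, graphCode g = w ∧ OuterQuasiPlanar k (graphOf g))

theorem nphard (k : ℕ) (hk : 3 < k) :
    ∀ L ∈ N68a2faeb.NP, N793a5b8e.ManyOneReducible L (Recognition k) := by
  intro L hL
  obtain ⟨w, rfl⟩ : ∃ w, k = w + 4 := ⟨k - 4, by omega⟩
  obtain ⟨f, hf, h⟩ := H1.PNP.np_outerQP w hL
  refine H68.NPH.manyOne (Q := fun g => H68.OQP.OuterQP (w + 4) (H68.OQP.graphOf g)) hf ?_ h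
  intro g
  have e : (Recognition (w + 4) (H68.OQP.encG g) = true) ↔
      ∃ g', graphCode g' = H68.OQP.encG g ∧ OuterQuasiPlanar (w + 4) (graphOf g') := by
    unfold Recognition
    exact @decide_eq_true_iff _ (Classical.propDecidable _)
  rw [e]
  constructor
  · rintro ⟨g', h1, h2⟩
    obtain rfl : g' = g := H1.PNP.encG_inj h1
    exact h2
  · intro h1
    exact ⟨g, rfl, h1⟩

/-- For each `k > 3`, recognising outer `k`-quasi-planar graphs is NP-hard: every decision problem
in the class NP of the Prelude is reducible to it by a many-one reduction computable in polynomial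
time.  In particular, if the problem is in P, then P = NP. -/
theorem result (k : ℕ) (hk : 3 < k) :
    (∀ L ∈ N68a2faeb.NP, N793a5b8e.ManyOneReducible L (Recognition k)) ∧
    (Recognition k ∈ N68a2faeb.P → N68a2faeb.P = N68a2faeb.NP) :=
  ⟨nphard k hk, H1.PNP.P_eq_NP_of_hard (nphard k hk)⟩

end Pool.Agent.Results.MP_3c8dce_lc.NPHard
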